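import Pool.Agent.H21.Leonard

namespace Pool.Agent.Results.MP_9ad7dc_al.Generate

open Pool.Agent.H21.Leonard Module

theorem result (K V : Type) [Field K] [AddCommGroup V] [Module K V] [FiniteDimensional K V]
    (d : ℕ) (hd : finrank K V = d + 1) (A A' : End K V) (E E' : Fin (d + 1) → End K V)
    (h : IsLeonardSystem A A' E E') (r : Fin (d + 1)) :
    Algebra.adjoin K (E' '' {i | i ≤ r} ∪ E '' {j | r ≤ j}) = ⊤ := by
  classical
  obtain ⟨h1, h2, h3, h4⟩ := h
  obtain ⟨θ, b, hθ, hA, hE⟩ := exists_basis hd h1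
  obtain ⟨θ', b', hθ', hA', hE'⟩ := exists_basis hd h2
  obtain ⟨H1, H2⟩ := hess_of b' hE' h4
  obtain ⟨-, H4⟩ := hess_of b hE h3
  set T := Algebra.adjoin K (E' '' {i | i ≤ r} ∪ E '' {j | r ≤ j}) with hT
  have mE' : ∀ i, i ≤ r → E' i ∈ T := fun i hi => Algebra.subset_adjoin (Or.inl ⟨i, hi, rfl⟩)
  have mE : ∀ j, r ≤ j → E j ∈ T := fun j hj => Algebra.subset_adjoin (Or.inr ⟨j, hj, rfl⟩)
  have c1 : ∀ j, b.repr (b' 0) j ≠ 0 := by
    intro j hj
    refine b'.ne_zero 0 (zero_int b b' A θ hθ hA H1 0 {j}ᶜ (by simp [Finset.card_compl]) _ ?_ ?_)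
    · intro i hi
      have : (0 : Fin (d + 1)) ≠ i := by rintro rfl; simp at hi
      simp [this]
    · intro k hk
      have : k = j := by simpa using hk
      rwa [this]
  have c2 : ∀ i, b'.repr (b (Fin.last d)) i ≠ 0 := by
    intro j hj
    refine b.ne_zero (Fin.last d) (zero_int b' (b.reindex Fin.revPerm) A' θ' hθ' hA' H4 0 {j}ᶜ
      (by simp [Finset.card_compl]) _ ?_ ?_)
    · intro i hi
      have : Fin.last d ≠ i.rev := by
        intro h; have := congrArg Fin.val h; simp [Fin.val_rev] at this; omega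
      rw [Basis.repr_reindex_apply, Basis.repr_self]
      exact Finsupp.single_eq_of_ne' this
    · intro k hk
      have : k = j := by simpa using hk
      rwa [this]
  have c3 : ∀ j, b'.repr (b j) 0 ≠ 0 := by
    intro j hj
    rcases Nat.eq_zero_or_pos d with rfl | hd0
    · apply b.ne_zero j
      refine b'.ext_elem fun i => ?_
      rw [Subsingleton.elim (α := Fin 1) i 0, hj]; simp
    refine b.ne_zero j (zero_int b (b'.reindex Fin.revPerm) A θ hθ hA H2 (d - 1) {j}
      (by simp; omega) _ ?_ ?_)
    · intro i hi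
      have : i.rev = 0 := by ext; simp [Fin.val_rev]; omega
      simp [this, hj]
    · intro k hk
      have : j ≠ k := by rintro rfl; simp at hk
      simp [this]
  have c4 : ∀ i, b.repr (b' i) (Fin.last d) ≠ 0 := by
    intro j hj
    rcases Nat.eq_zero_or_pos d with rfl | hd0
    · apply b'.ne_zero j
      refine b.ext_elem fun i => ?_
      rw [Subsingleton.elim (α := Fin 1) i (Fin.last 0), hj]; simp
    refine b'.ne_zero j (zero_int b' b A' θ' hθ' hA' (hess_of b hE h3).1 (d - 1) {j}
      (by simp; omega) _ ?_ ?_)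
    · intro i hi
      have : i = Fin.last d := by ext; simp; omega
      simp [this, hj]
    · intro k hk
      have : j ≠ k := by rintro rfl; simp at hk
      simp [this]
  let S1 : Submodule K V := (Subalgebra.toSubmodule T).map (LinearMap.applyₗ (b' 0))
  let S2 : Submodule K (Dual K V) :=
    (Subalgebra.toSubmodule T).map (LinearMap.llcomp K V V K (b'.coord 0))
  have m1 : ∀ j, r ≤ j → b j ∈ S1 := fun j hj =>
    (S1.smul_mem_iff (c1 j)).1 ⟨E j, mE j hj, by simp [hE]⟩
  have m2 : ∀ i, i ≤ r → b' i ∈ S1 := fun i hi =>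
    (S1.smul_mem_iff (mul_ne_zero (c1 (Fin.last d)) (c2 i))).1
      ⟨E' i * E (Fin.last d), T.mul_mem (mE' i hi) (mE _ (Fin.le_last r)), by simp [hE, hE', smul_smul]⟩
  have m3 : ∀ j, r ≤ j → b.coord j ∈ S2 := fun j hj =>
    (S2.smul_mem_iff (c3 j)).1 ⟨E j, mE j hj, by ext x; simp [hE, mul_comm]⟩
  have m4 : ∀ i, i ≤ r → b'.coord i ∈ S2 := fun i hi =>
    (S2.smul_mem_iff (mul_ne_zero (c3 (Fin.last d)) (c4 i))).1
      ⟨E (Fin.last d) * E' i, T.mul_mem (mE _ (Fin.le_last r)) (mE' i hi),
        by ext x; simp [hE, hE']; ring⟩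
  have t1 : S1 = ⊤ := by
    let P : Submodule K V := Submodule.span K (b' '' {i | i ≤ r})
    let Q : Submodule K V := Submodule.span K (b '' {j | r < j})
    have hPQ : Disjoint P Q := by
      rw [Submodule.disjoint_def]
      intro x hP hQ
      rw [Basis.mem_span_image] at hP hQ
      refine zero_int b b' A θ hθ hA H1 r (Finset.Ioi r) (by simp; omega) x ?_ ?_
      · intro i hi
        by_contra hne
        have := hP (Finsupp.mem_support_iff.2 hne)
        exact absurd hi (not_lt.2 this)
      · intro j hj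
        by_contra hne
        exact hj (by simpa using hQ (Finsupp.mem_support_iff.2 hne))
    have dP : finrank K P = r + 1 := by
      have := finrank_span_set_eq_card (R := K) (s := b' '' {i | i ≤ r})
        ((b'.linearIndependent.linearIndepOn {i | i ≤ r}).id_image)
      rw [this, Set.toFinset_image, Finset.card_image_of_injective _ b'.injective]
      have : ({i | i ≤ r} : Set (Fin (d + 1))).toFinset = Finset.Iic r := by ext; simp
      rw [this]; simp
    have dQ : finrank K Q = d - r := by
      have := finrank_span_set_eq_card (R := K) (s := b '' {j | r < j})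
        ((b.linearIndependent.linearIndepOn {j | r < j}).id_image)
      rw [this, Set.toFinset_image, Finset.card_image_of_injective _ b.injective]
      have : ({j | r < j} : Set (Fin (d + 1))).toFinset = Finset.Ioi r := by ext; simp
      rw [this]; simp
    have hs : P ⊔ Q = ⊤ := by
      apply Submodule.eq_top_of_finrank_eq
      have := Submodule.finrank_sup_add_finrank_inf_eq P Q
      rw [hPQ.eq_bot, finrank_bot, dP, dQ] at this
      have := r.2
      omega
    rw [eq_top_iff, ← hs]
    refine sup_le (Submodule.span_le.2 ?_) (Submodule.span_le.2 ?_)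
    · rintro _ ⟨i, hi, rfl⟩; exact m2 i hi
    · rintro _ ⟨j, hj, rfl⟩; exact m1 j (le_of_lt hj)
  have t2 : S2 = ⊤ := by
    rw [← S2.span_eq]
    refine Submodule.span_eq_top_of_ne_zero fun x hx => ?_
    by_contra hne
    push Not at hne
    apply hx
    rcases eq_or_lt_of_le (Fin.le_last r) with hr | hr
    · exact b'.ext_elem fun i => by simpa using hne _ (m4 i (hr ▸ Fin.le_last i))
    have hr' : (r : ℕ) < d := hr
    refine zero_int b (b'.reindex Fin.revPerm) A θ hθ hA H2 (d - r - 1) (Finset.Iic r)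
      (by simp; omega) x ?_ ?_
    · intro i hi
      have : i.rev ≤ r := by rw [Fin.le_def, Fin.val_rev]; omega
      simpa using hne _ (m4 _ this)
    · intro j hj
      have : r ≤ j := le_of_lt (by simpa using hj)
      simpa using hne _ (m3 _ this)
  have r1 : ∀ (x : V) (f : Dual K V), f.smulRight x ∈ T := by
    intro x f
    obtain ⟨s, hs, rfl⟩ : x ∈ S1 := t1 ▸ trivial
    obtain ⟨t, ht, rfl⟩ : f ∈ S2 := t2 ▸ trivial
    have : s * E' 0 * t ∈ T := T.mul_mem (T.mul_mem hs (mE' 0 (Fin.zero_le r))) ht
    convert this using 1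
    ext y; simp [hE']
  rw [eq_top_iff]
  intro f _
  have : f = ∑ i, (b.coord i).smulRight (f (b i)) := by
    refine b.ext fun j => ?_
    simp [Finsupp.single_apply]
  rw [this]
  exact T.sum_mem fun i _ => r1 _ _

end Pool.Agent.Results.MP_9ad7dc_al.Generate
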